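import Pool.Agent.H1.PermPoset

namespace Pool.Agent.Results.MP_923311_co.Nonzero

open Pool.Agent.H1.PermPoset

def p21 : P := mk 2 ![1, 0] ![1, 0] (by decide) (by decide)
def p132 : P := mk 3 ![0, 2, 1] ![0, 2, 1] (by decide) (by decide)
def p213 : P := mk 3 ![1, 0, 2] ![1, 0, 2] (by decide) (by decide)
def p321 : P := mk 3 ![2, 1, 0] ![2, 1, 0] (by decide) (by decide)
def p1243 : P := mk 4 ![0, 1, 3, 2] ![0, 1, 3, 2] (by decide) (by decide)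
def p1324 : P := mk 4 ![0, 2, 1, 3] ![0, 2, 1, 3] (by decide) (by decide)
def p1432 : P := mk 4 ![0, 3, 2, 1] ![0, 3, 2, 1] (by decide) (by decide)
def p2143 : P := mk 4 ![1, 0, 3, 2] ![1, 0, 3, 2] (by decide) (by decide)
def p12543 : P := mk 5 ![0, 1, 4, 3, 2] ![0, 1, 4, 3, 2] (by decide) (by decide)
def p13254 : P := mk 5 ![0, 2, 1, 4, 3] ![0, 2, 1, 4, 3] (by decide) (by decide)
def p21543 : P := mk 5 ![1, 0, 4, 3, 2] ![1, 0, 4, 3, 2] (by decide) (by decide)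
def p132654 : P := mk 6 ![0, 2, 1, 5, 4, 3] ![0, 2, 1, 5, 4, 3] (by decide) (by decide)

def E : List P := [p21, p132, p213, p321, p1243, p1324, p1432, p2143, p12543, p13254, p21543]

def t (τ : P) : ℤ :=
  ([([1, 0], (1 : ℤ)), ([0, 2, 1], (-1 : ℤ)), ([1, 0, 2], (-1 : ℤ)), ([2, 1, 0], (-1 : ℤ)), ([0, 1, 3, 2], (0 : ℤ)), ([0, 2, 1, 3], (1 : ℤ)), ([0, 3, 2, 1], (1 : ℤ)), ([1, 0, 3, 2], (1 : ℤ)), ([0, 1, 4, 3, 2], (0 : ℤ)), ([0, 2, 1, 4, 3], (-1 : ℤ)), ([1, 0, 4, 3, 2], (0 : ℤ))].lookup (code τ)).getD 0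

theorem hE2 : ∀ f : Fin 2 → Fin 6, (∀ i j, i < j → f i < f j) → ∀ q : Equiv.Perm (Fin 2),
    (∀ i j, q i < q j ↔ p132654.p (f i) < p132654.p (f j)) → p21 ≤ ⟨2, q⟩ → (⟨2, q⟩ : P) ∈ E := by
  decide +kernel

theorem hE3 : ∀ f : Fin 3 → Fin 6, (∀ i j, i < j → f i < f j) → ∀ q : Equiv.Perm (Fin 3),
    (∀ i j, q i < q j ↔ p132654.p (f i) < p132654.p (f j)) → p21 ≤ ⟨3, q⟩ → (⟨3, q⟩ : P) ∈ E := by
  decide +kernel

theorem hE4 : ∀ f : Fin 4 → Fin 6, (∀ i j, i < j → f i < f j) → ∀ q : Equiv.Perm (Fin 4),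
    (∀ i j, q i < q j ↔ p132654.p (f i) < p132654.p (f j)) → p21 ≤ ⟨4, q⟩ → (⟨4, q⟩ : P) ∈ E := by
  decide +kernel

theorem hE5' : ∀ a b : Fin 6, a < b → ∀ c, b < c → ∀ d, c < d → ∀ e, d < e →
    ∀ q : Equiv.Perm (Fin 5), (∀ i j, q i < q j ↔
      p132654.p (![a, b, c, d, e] i) < p132654.p (![a, b, c, d, e] j)) →
      p21 ≤ ⟨5, q⟩ → (⟨5, q⟩ : P) ∈ E := by
  decide +kernel

theorem hE5 : ∀ f : Fin 5 → Fin 6, (∀ i j, i < j → f i < f j) → ∀ q : Equiv.Perm (Fin 5),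
    (∀ i j, q i < q j ↔ p132654.p (f i) < p132654.p (f j)) → p21 ≤ ⟨5, q⟩ →
    (⟨5, q⟩ : P) ∈ E := by
  intro f hf q h
  have e : ![f 0, f 1, f 2, f 3, f 4] = f := by
    ext i; fin_cases i <;> rfl
  refine hE5' (f 0) (f 1) (hf _ _ (by decide)) (f 2) (hf _ _ (by decide)) (f 3)
    (hf _ _ (by decide)) (f 4) (hf _ _ (by decide)) q ?_
  rw [e]; exact h

theorem hE (τ : P) (h1 : p21 ≤ τ) (h2 : τ < p132654) : τ ∈ E := by
  obtain ⟨k, q⟩ := τ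
  obtain ⟨h3, f, hf, h4⟩ := (lt_iff _ _).1 h2
  have h5 : 2 ≤ k := Contains.len_le h1
  have h6 : k < 6 := h3
  interval_cases k
  · exact hE2 f (fun _ _ h => hf h) q h4 h1
  · exact hE3 f (fun _ _ h => hf h) q h4 h1
  · exact hE4 f (fun _ _ h => hf h) q h4 h1
  · exact hE5 f (fun _ _ h => hf h) q h4 h1

theorem hmu : ∀ τ, p21 ≤ τ → τ < p132654 → mu p21 τ = t τ :=
  mu_table p21 p132654 E t hE (by decide +kernel) (by decide +kernel) (by decide +kernel)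
    (by decide +kernel)

theorem face (C : Finset P) (h : ∀ τ ∈ C, p21 < τ ∧ τ < p132654 ∧ t τ ≠ 0)
    (h' : ∀ a ∈ C, ∀ b ∈ C, a ≤ b ∨ b ≤ a) : IsFace (fun m => m ≠ 0) p21 p132654 C :=
  ⟨fun τ hτ => ⟨(h τ hτ).1, (h τ hτ).2.1, by
      rw [hmu τ (h τ hτ).1.le (h τ hτ).2.1]; exact (h τ hτ).2.2⟩,
    fun a ha b hb _ => h' a ha b hb⟩

/-- The subcomplex induced by the elements with `μ (σ, τ) ≠ 0` need not be pure. -/
theorem result : ¬ ∀ σ π : P, σ ≤ π → IsPure (fun m => m ≠ 0) σ π := by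
  intro h
  refine not_pure _ p21 p132654 {p321, p1432} {p132, p1324, p13254} ⟨face _ (by decide +kernel) (by decide +kernel), ?_⟩
    (face _ (by decide +kernel) (by decide +kernel)) (by decide +kernel)
    (h _ _ (by decide +kernel))
  intro X hX hsub τ hτ
  obtain ⟨h1, h2, h3⟩ := hX.1 τ hτ
  rw [hmu τ h1.le h2] at h3
  have key : ∀ τ ∈ E, τ ≠ p21 → t τ ≠ 0 →
      (∀ a ∈ ({p321, p1432} : Finset P), a ≤ τ ∨ τ ≤ a) → τ ∈ ({p321, p1432} : Finset P) := by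
    decide +kernel
  refine key τ (hE τ h1.le h2) h1.ne' h3 fun a ha => ?_
  exact hX.2.total (hsub ha) hτ

end Pool.Agent.Results.MP_923311_co.Nonzero
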