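import Pool.Agent.H1.PermPoset

namespace Pool.Agent.Results.MP_923311_co.Zero

open Pool.Agent.H1.PermPoset

def p1 : P := mk 1 ![0] ![0] (by decide) (by decide)
def p12 : P := mk 2 ![0, 1] ![0, 1] (by decide) (by decide)
def p21 : P := mk 2 ![1, 0] ![1, 0] (by decide) (by decide)
def p123 : P := mk 3 ![0, 1, 2] ![0, 1, 2] (by decide) (by decide)
def p132 : P := mk 3 ![0, 2, 1] ![0, 2, 1] (by decide) (by decide)
def p213 : P := mk 3 ![1, 0, 2] ![1, 0, 2] (by decide) (by decide)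
def p231 : P := mk 3 ![1, 2, 0] ![2, 0, 1] (by decide) (by decide)
def p321 : P := mk 3 ![2, 1, 0] ![2, 1, 0] (by decide) (by decide)
def p1324 : P := mk 4 ![0, 2, 1, 3] ![0, 2, 1, 3] (by decide) (by decide)
def p1342 : P := mk 4 ![0, 2, 3, 1] ![0, 3, 1, 2] (by decide) (by decide)
def p1432 : P := mk 4 ![0, 3, 2, 1] ![0, 3, 2, 1] (by decide) (by decide)
def p3241 : P := mk 4 ![2, 1, 3, 0] ![3, 1, 0, 2] (by decide) (by decide)
def p14352 : P := mk 5 ![0, 3, 2, 4, 1] ![0, 4, 2, 1, 3] (by decide) (by decide)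

def E : List P := [p1, p12, p21, p123, p132, p213, p231, p321, p1324, p1342, p1432, p3241]

def t (τ : P) : ℤ :=
  ([([0], (1 : ℤ)), ([0, 1], (-1 : ℤ)), ([1, 0], (-1 : ℤ)), ([0, 1, 2], (0 : ℤ)), ([0, 2, 1], (1 : ℤ)), ([1, 0, 2], (1 : ℤ)), ([1, 2, 0], (1 : ℤ)), ([2, 1, 0], (0 : ℤ)), ([0, 2, 1, 3], (-1 : ℤ)), ([0, 2, 3, 1], (-1 : ℤ)), ([0, 3, 2, 1], (0 : ℤ)), ([2, 1, 3, 0], (-1 : ℤ))].lookup (code τ)).getD 0

theorem hE1 : ∀ f : Fin 1 → Fin 5, (∀ i j, i < j → f i < f j) → ∀ q : Equiv.Perm (Fin 1),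
    (∀ i j, q i < q j ↔ p14352.p (f i) < p14352.p (f j)) → p1 ≤ ⟨1, q⟩ → (⟨1, q⟩ : P) ∈ E := by
  decide +kernel

theorem hE2 : ∀ f : Fin 2 → Fin 5, (∀ i j, i < j → f i < f j) → ∀ q : Equiv.Perm (Fin 2),
    (∀ i j, q i < q j ↔ p14352.p (f i) < p14352.p (f j)) → p1 ≤ ⟨2, q⟩ → (⟨2, q⟩ : P) ∈ E := by
  decide +kernel

theorem hE3 : ∀ f : Fin 3 → Fin 5, (∀ i j, i < j → f i < f j) → ∀ q : Equiv.Perm (Fin 3),
    (∀ i j, q i < q j ↔ p14352.p (f i) < p14352.p (f j)) → p1 ≤ ⟨3, q⟩ → (⟨3, q⟩ : P) ∈ E := by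
  decide +kernel

theorem hE4 : ∀ f : Fin 4 → Fin 5, (∀ i j, i < j → f i < f j) → ∀ q : Equiv.Perm (Fin 4),
    (∀ i j, q i < q j ↔ p14352.p (f i) < p14352.p (f j)) → p1 ≤ ⟨4, q⟩ → (⟨4, q⟩ : P) ∈ E := by
  decide +kernel

theorem hE (τ : P) (h1 : p1 ≤ τ) (h2 : τ < p14352) : τ ∈ E := by
  obtain ⟨k, q⟩ := τ
  obtain ⟨h3, f, hf, h4⟩ := (lt_iff _ _).1 h2
  have h5 : 1 ≤ k := Contains.len_le h1
  have h6 : k < 5 := h3
  interval_cases k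
  · exact hE1 f (fun _ _ h => hf h) q h4 h1
  · exact hE2 f (fun _ _ h => hf h) q h4 h1
  · exact hE3 f (fun _ _ h => hf h) q h4 h1
  · exact hE4 f (fun _ _ h => hf h) q h4 h1

theorem hmu : ∀ τ, p1 ≤ τ → τ < p14352 → mu p1 τ = t τ :=
  mu_table p1 p14352 E t hE (by decide +kernel) (by decide +kernel) (by decide +kernel)
    (by decide +kernel)

theorem face (C : Finset P) (h : ∀ τ ∈ C, p1 < τ ∧ τ < p14352 ∧ t τ = 0)
    (h' : ∀ a ∈ C, ∀ b ∈ C, a ≤ b ∨ b ≤ a) : IsFace (fun m => m = 0) p1 p14352 C :=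
  ⟨fun τ hτ => ⟨(h τ hτ).1, (h τ hτ).2.1, by
      rw [hmu τ (h τ hτ).1.le (h τ hτ).2.1]; exact (h τ hτ).2.2⟩,
    fun a ha b hb _ => h' a ha b hb⟩

/-- The subcomplex induced by the elements with `μ (σ, τ) = 0` need not be pure. -/
theorem result : ¬ ∀ σ π : P, σ ≤ π → IsPure (fun m => m = 0) σ π := by
  intro h
  refine not_pure _ p1 p14352 {p123} {p321, p1432} ⟨face _ (by decide +kernel) (by decide +kernel), ?_⟩
    (face _ (by decide +kernel) (by decide +kernel)) (by decide +kernel)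
    (h _ _ (by decide +kernel))
  intro X hX hsub τ hτ
  obtain ⟨h1, h2, h3⟩ := hX.1 τ hτ
  rw [hmu τ h1.le h2] at h3
  have key : ∀ τ ∈ E, τ ≠ p1 → t τ = 0 →
      (∀ a ∈ ({p123} : Finset P), a ≤ τ ∨ τ ≤ a) → τ ∈ ({p123} : Finset P) := by
    decide +kernel
  refine key τ (hE τ h1.le h2) h1.ne' h3 fun a ha => ?_
  exact hX.2.total (hsub ha) hτ

end Pool.Agent.Results.MP_923311_co.Zero
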